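import Pool.Agent.helper47.SC.Spec

/-!
Row OMC (MP_0015b7_an): the domain is open, connected and has a nonempty frontier.
-/

set_option autoImplicit false

open scoped Topology ContDiff
open Set Filter Metric MeasureTheory

namespace Pool.Agent.SC

theorem OMC (h1 : SHR_stmt) (h2 : YYO_stmt) (h3 : YYC_stmt) (_h4 : NSQ_stmt) : OMC_stmt := by
  intro s m h₁ h₂ hm hs hX hh₁ hh₂
  obtain ⟨hPP, hPP', hS⟩ := h1 h₁ h₂
  obtain ⟨hDo, hPhi, hPsi⟩ := hS (XX s m) hX hh₁ hh₂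
  set D : Set C4 := {q : C4 | (q.1, q.2.1) ∈ XX s m} with hD
  have hYD : YY s m ⊆ D := fun q hq => hq.1
  have hOD : Om s m h₁ h₂ ⊆ D := fun z hz => hz.1
  have hO1 : Om s m h₁ h₂ = D ∩ Psi h₁ h₂ ⁻¹' (YY s m) := by
    ext z
    exact ⟨fun hz => ⟨hOD hz, hz⟩, fun hz => hz.2⟩
  have hO2 : Om s m h₁ h₂ = Phi h₁ h₂ '' (YY s m) := by
    ext z
    constructor
    · intro hz
      exact ⟨Psi h₁ h₂ z, hz, hPP' z⟩
    · rintro ⟨q, hq, rfl⟩
      show Psi h₁ h₂ (Phi h₁ h₂ q) ∈ YY s m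
      rw [hPP]
      exact hq
  have hopen : IsOpen (Om s m h₁ h₂) := by
    rw [hO1]
    exact hPsi.continuousOn.isOpen_inter_preimage hDo (h2 s m hm hs)
  have hconn : IsConnected (Om s m h₁ h₂) := by
    rw [hO2]
    exact (h3 s m hm hs).image _ (hPhi.continuousOn.mono hYD)
  refine ⟨hopen, hconn, ?_⟩
  rw [nonempty_frontier_iff]
  refine ⟨hconn.nonempty, ?_⟩
  intro huniv
  have hz : ((0, (1, (0, 0))) : C4) ∈ Om s m h₁ h₂ := by
    rw [huniv]
    exact mem_univ _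
  have h5 := (hOD hz).1
  have h6 : ‖(1 : ℂ)‖ < 1 / 4 := h5
  rw [norm_one] at h6
  norm_num at h6

end Pool.Agent.SC
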