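import Pool.Agent.helper47.SC.Spec

/-!
Row PCO (MP_0015b7_an): the set where a plurisubharmonic function is minus infinity is null.
-/

set_option autoImplicit false

open scoped Topology ContDiff
open Set Filter Metric MeasureTheory

namespace Pool.Agent.SC

theorem PCO_i2 : (volume : Measure (ℂ × ℂ)).IsOpenPosMeasure := by
  rw [Measure.volume_eq_prod]
  infer_instance

theorem PCO_i3 : (volume : Measure (ℂ × ℂ × ℂ)).IsOpenPosMeasure := by
  have := PCO_i2
  rw [Measure.volume_eq_prod]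
  infer_instance

theorem PCO_i4 : (volume : Measure (ℂ × ℂ × ℂ × ℂ)).IsOpenPosMeasure := by
  have := PCO_i3
  rw [Measure.volume_eq_prod]
  infer_instance

theorem PCO (h1 : PBA_stmt) : PCO_stmt := by
  have := PCO_i4
  intro V u hV hVc hu hex
  obtain ⟨w₀, hw₀V, hw₀⟩ := hex
  set N : Set C4 := {w | w ∈ V ∧ u w = ⊥} with hN
  set G : Set C4 := {z | ∃ U ∈ 𝓝 z, volume (N ∩ U) = 0} with hG
  -- a point of finite value with a ball in `V`
  have hball : ∀ (w : C4) (r : ℝ), ball w r ⊆ V → u w ≠ ⊥ → volume (N ∩ ball w r) = 0 := by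
    intro w r hr hw
    refine measure_mono_null ?_ (h1 V u hV hu w r hr hw)
    intro x hx
    exact ⟨hx.2, hx.1.2⟩
  have hGo : IsOpen G := by
    rw [isOpen_iff_mem_nhds]
    rintro z ⟨U, hU, hU0⟩
    filter_upwards [eventually_mem_nhds_iff.2 hU] with y hy
    exact ⟨U, hy, hU0⟩
  have hGn : (V ∩ G).Nonempty := by
    obtain ⟨r, hr0, hr⟩ := Metric.isOpen_iff.1 hV w₀ hw₀V
    exact ⟨w₀, hw₀V, ball w₀ r, ball_mem_nhds w₀ hr0, hball w₀ r hr hw₀⟩
  have hGc : closure G ∩ V ⊆ G := by
    rintro z ⟨hzG, hzV⟩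
    obtain ⟨R, hR0, hR⟩ := Metric.isOpen_iff.1 hV z hzV
    obtain ⟨w, ⟨U, hU, hU0⟩, hwz⟩ := Metric.mem_closure_iff.1 hzG (R / 4) (by positivity)
    obtain ⟨δ, hδ0, hδ⟩ := Metric.mem_nhds_iff.1 hU
    set δ' : ℝ := min δ (R / 4) with hδ'
    have hδ'0 : 0 < δ' := lt_min hδ0 (by positivity)
    have hpos : 0 < volume (ball w δ') := Metric.measure_ball_pos volume w hδ'0
    have hw'V : ∀ w' ∈ ball w δ', dist w' z < R / 2 := by
      intro w' hw'
      have h2 : dist w' w < R / 4 := lt_of_lt_of_le hw' (min_le_right _ _)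
      have h3 := dist_triangle w' w z
      rw [dist_comm z w] at hwz
      linarith
    obtain ⟨w', hw', hw'u⟩ : ∃ w' ∈ ball w δ', u w' ≠ ⊥ := by
      by_contra hcon
      push Not at hcon
      have hsub : ball w δ' ⊆ N ∩ U := by
        intro x hx
        refine ⟨⟨hR ?_, hcon x hx⟩, hδ (ball_subset_ball (min_le_left _ _) hx)⟩
        have := hw'V x hx
        rw [mem_ball]
        linarith
      exact hpos.ne' (measure_mono_null hsub hU0)
    have hd := hw'V w' hw'
    refine ⟨ball w' (R / 2), isOpen_ball.mem_nhds ?_, hball w' (R / 2) ?_ hw'u⟩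
    · rw [mem_ball, dist_comm]
      exact hd
    · intro x hx
      apply hR
      rw [mem_ball] at hx ⊢
      have := dist_triangle x w' z
      linarith
  have hVG : V ⊆ G :=
    hVc.isPreconnected.subset_of_closure_inter_subset hGo hGn hGc
  apply measure_null_of_locally_null
  intro x hx
  obtain ⟨U, hU, hU0⟩ := hVG hx.1
  exact ⟨N ∩ U, inter_mem self_mem_nhdsWithin (mem_nhdsWithin_of_mem_nhds hU), hU0⟩

end Pool.Agent.SC
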